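import Mathlib
import Pool.Agent.Helper292.SP.Lib

set_option autoImplicit false

open Cardinal Set Pool.Agent.Helper292.SP

namespace Pool.Agent.Results.MP_2825bc_lc.ForcedFailure

/-- There are well-orders `M`, of order type the ground model cardinal `(2 ^ ℵ₁)⁺`, and `K`, of order type the ground
model cardinal `ℶ_{(2 ^ ℵ₁)⁺}`, and a nonempty forcing notion `P` such that in every extension by `P`: `ℵ₁` (of the
ground model) is still a cardinal; `K` is a cardinal; `M` is a regular cardinal smaller than `K` and is the cofinality of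
`K`, so `K` is singular; `M → (M, ℵ₁)²`; `ρ ^ ℵ₁ < K` for all `ρ < K`; and `K → (K, ℵ₁)²` fails. -/
theorem result : ∃ (K M P : Type) (_ : LinearOrder K) (_ : WellFoundedLT K) (_ : LinearOrder M) (_ : WellFoundedLT M)
    (f : M → K) (_ : Preorder P),
    Ordinal.type (α := M) (· < ·) = (Order.succ ((2 : Cardinal.{0}) ^ (ℵ₁ : Cardinal.{0}))).ord ∧
    Ordinal.type (α := K) (· < ·) =
      (Cardinal.beth (Order.succ ((2 : Cardinal.{0}) ^ (ℵ₁ : Cardinal.{0}))).ord).ord ∧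
    Nonempty P ∧ (∃ a : K, Nonempty (M ≃o Iio a)) ∧ StrictMono f ∧ (∀ y, ∃ x, y ≤ f x) ∧
    ∀ p : P,
      p ∈ IsCard P (ℵ₁ : Cardinal.{0}).ord.ToType ∧
      p ∈ IsCard P K ∧ p ∈ IsCard P M ∧ p ∈ IsReg P M ∧
      p ∈ Arrow P M (ℵ₁ : Cardinal.{0}).ord.ToType ∧
      p ∈ PowLT P K (ℵ₁ : Cardinal.{0}).ord.ToType ∧
      p ∈ fnot (Arrow P K (ℵ₁ : Cardinal.{0}).ord.ToType) := by
  have h01 : (ℵ₀ : Cardinal.{0}) < ℵ₁ := Cardinal.aleph0_lt_aleph_one
  have h12 : (ℵ₁ : Cardinal.{0}) < Cardinal.aleph 2 := by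
    rw [aleph_two]; exact Order.lt_succ _
  set c : Cardinal.{0} := (2 : Cardinal.{0}) ^ (ℵ₁ : Cardinal.{0}) with hcdef
  have h1c : (ℵ₁ : Cardinal.{0}) < c := Cardinal.cantor _
  have hc0 : ℵ₀ ≤ c := (h01.trans h1c).le
  have h2c : Cardinal.aleph 2 ≤ c := by
    rw [aleph_two]
    exact Order.succ_le_of_lt h1c
  have hpow : ∀ σ < Cardinal.aleph.{0} 2, c ^ σ ≤ c := by
    intro σ hσ
    rw [aleph_two] at hσ
    have hσ' : σ ≤ ℵ₁ := Order.lt_succ_iff.1 hσ
    rw [hcdef, ← Cardinal.power_mul]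
    apply Cardinal.power_le_power_left two_ne_zero
    calc (ℵ₁ : Cardinal.{0}) * σ ≤ ℵ₁ * ℵ₁ := by gcongr
      _ = ℵ₁ := Cardinal.mul_eq_self h01.le
  have hreg : (Cardinal.aleph.{0} 2).IsRegular := by
    rw [aleph_two]
    exact Cardinal.isRegular_succ h01.le
  have hlim : Order.IsSuccLimit (Order.succ c).ord :=
    Cardinal.isSuccLimit_ord (hc0.trans (Order.le_succ c))
  have hstrong := (Cardinal.isStrongLimit_beth (o := (Order.succ c).ord)).2 hlim.isSuccPrelimit
  have hsl : ∀ ρ < Cardinal.beth (Order.succ c).ord, (2 : Cardinal.{0}) ^ ρ < Cardinal.beth (Order.succ c).ord :=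
    fun ρ hρ => hstrong.isStrongPrelimit hρ
  have hκ : (2 : Cardinal.{0}) ^ c < Cardinal.beth (Order.succ c).ord := by
    refine hsl c (lt_of_le_of_lt (Cardinal.le_beth_ord c) ?_)
    exact Cardinal.beth_lt_beth.2 (Cardinal.ord_lt_ord.2 (Order.lt_succ c))
  have hcof : (Cardinal.beth (Order.succ c).ord).ord.cof = Order.succ c := by
    have h1 := Ordinal.cof_map_of_isNormal (Cardinal.isNormal_ord.comp Cardinal.isNormal_beth) hlim
    simp only [Function.comp_apply] at h1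
    rw [h1]
    exact (Cardinal.isRegular_succ hc0).cof_ord
  obtain ⟨Q, oK, wK, f, hQθ, hQc, hQK, hmono, hA, hI, hseg, hf, hcofinal, htK, htM⟩ :=
    exists_par (Cardinal.aleph 2) c (Cardinal.beth (Order.succ c).ord) (h01.trans h12).le hreg h2c hpow hκ hcof
  have hC : #(ℵ₁ : Cardinal.{0}).ord.ToType < Q.θ := by
    rw [Cardinal.mk_toType, Cardinal.card_ord, hQθ]; exact h12
  refine ⟨Q.K, Q.M, Cond Q, oK, wK, inferInstance, inferInstance, f, inferInstance, htM, htK, cond_nonempty Q, hseg,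
    hf, hcofinal, fun p => ⟨?_, isCard_K hI p, isCard_M p, isReg_M p, arrow_M (hQθ ▸ h12) p, powLT_K hC ?_ p,
      not_arrow hA hmono (hQθ ▸ h12.le) p⟩⟩
  · exact isCard_small (hI_ord ℵ₁) (fun a => by
      rw [hQθ]; exact (Cardinal.mk_Iio_toType_ord_lt a).trans h12) p
  · intro a
    have h1 : #(Iio a) < Cardinal.beth (Order.succ c).ord := hQK ▸ hI a
    have h2 : #((ℵ₁ : Cardinal.{0}).ord.ToType → Iio a) < Cardinal.beth (Order.succ c).ord := by
      rw [Cardinal.mk_arrow, Cardinal.lift_id, Cardinal.lift_id, Cardinal.mk_toType, Cardinal.card_ord]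
      have h3 : (ℵ₁ : Cardinal.{0}) < Cardinal.beth (Order.succ c).ord :=
        (h1c.trans (Cardinal.cantor c)).trans hκ
      have h4 : max (#(Iio a)) ℵ₁ < Cardinal.beth (Order.succ c).ord := max_lt h1 h3
      calc #(Iio a) ^ (ℵ₁ : Cardinal.{0}) ≤ (max (#(Iio a)) ℵ₁) ^ (max (#(Iio a)) ℵ₁) := by
            refine (Cardinal.power_le_power_right (le_max_left _ _)).trans
              (Cardinal.power_le_power_left ?_ (le_max_right _ _))
            exact (lt_of_lt_of_le (Cardinal.aleph0_pos.trans h01) (le_max_right _ _)).ne'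
        _ = 2 ^ (max (#(Iio a)) ℵ₁) := Cardinal.power_self_eq (h01.le.trans (le_max_right _ _))
        _ < Cardinal.beth (Order.succ c).ord := hsl _ h4
    obtain ⟨B, hB⟩ : ∃ B : Set Q.K, #B = #((ℵ₁ : Cardinal.{0}).ord.ToType → Iio a) := by
      rw [← Cardinal.le_mk_iff_exists_set]
      rw [hQK]; exact h2.le
    obtain ⟨b, hb⟩ := hA B (by rw [hB, hQK]; exact h2)
    exact ⟨b, hB ▸ hb⟩

end Pool.Agent.Results.MP_2825bc_lc.ForcedFailure
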